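import Pool.Agent.W544.PG.Defs4

/-!
# PG3-TYP
-/

open Matrix Finset Module Polynomial

namespace Pool.Agent.W577.PG

open Pool.Agent.W544.PG

variable {n : ℕ}

/-- `u ∧ v` -/
def W (u v : Fin n → ℂ) : Matrix (Fin n) (Fin n) ℂ := vecMulVec u v - vecMulVec v u

theorem W_skew (u v : Fin n → ℂ) : (W u v)ᵀ = -(W u v) := by
  ext i j
  simp only [W, Matrix.transpose_apply, Matrix.neg_apply, Matrix.sub_apply, Matrix.vecMulVec_apply]
  ring

theorem vecMul_skew {s : Matrix (Fin n) (Fin n) ℂ} (hs : sᵀ = -s) (u : Fin n → ℂ) :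
    u ᵥ* s = -(s *ᵥ u) := by
  rw [← Matrix.mulVec_transpose, hs, Matrix.neg_mulVec]

theorem br_W {s : Matrix (Fin n) (Fin n) ℂ} (hs : sᵀ = -s) {a : ℂ} {v : Fin n → ℂ}
    (hv : s *ᵥ v = a • v) (u : Fin n → ℂ) : br s (W u v) = W (s *ᵥ u + a • u) v := by
  unfold br W
  rw [mul_sub, sub_mul, Matrix.mul_vecMulVec, Matrix.mul_vecMulVec, Matrix.vecMulVec_mul,
    Matrix.vecMulVec_mul, vecMul_skew hs, vecMul_skew hs, hv]
  ext i j
  simp only [Matrix.sub_apply, Matrix.vecMulVec_apply, Pi.neg_apply, Pi.add_apply, Pi.smul_apply,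
    smul_eq_mul]
  ring

theorem W_zero {x v : Fin n → ℂ} (hv : v ≠ 0) (h : W x v = 0) : ∃ c : ℂ, x = c • v := by
  obtain ⟨j, hj⟩ := Function.ne_iff.1 hv
  refine ⟨x j / v j, ?_⟩
  funext i
  have h1 := congrFun (congrFun h i) j
  simp only [W, Matrix.sub_apply, Matrix.vecMulVec_apply, Matrix.zero_apply] at h1
  simp only [Pi.zero_apply] at hj
  rw [Pi.smul_apply, smul_eq_mul, div_mul_eq_mul_div, eq_div_iff hj]
  linear_combination h1

/-- the range of `(s+a)^3 - (s+a)` is in the line of an eigenvector -/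
theorem range_line {s : Matrix (Fin n) (Fin n) ℂ} (hs : sᵀ = -s)
    (had : ∀ Z, Zᵀ = -Z → br s (br s (br s Z)) = br s Z) {a : ℂ} {v : Fin n → ℂ} (hv0 : v ≠ 0)
    (hv : s *ᵥ v = a • v) (u : Fin n → ℂ) :
    ∃ c : ℂ, (aeval s ((X + C a) ^ 3 - (X + C a)) : Matrix (Fin n) (Fin n) ℂ) *ᵥ u = c • v := by
  have hT : ∀ u : Fin n → ℂ, s *ᵥ u + a • u =
      (aeval s (X + C a) : Matrix (Fin n) (Fin n) ℂ) *ᵥ u := by
    intro u
    rw [map_add, aeval_X, aeval_C, Matrix.add_mulVec, Algebra.algebraMap_eq_smul_one,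
      Matrix.smul_mulVec, Matrix.one_mulVec]
  have h1 := had (W u v) (W_skew u v)
  rw [br_W hs hv, br_W hs hv, br_W hs hv, hT, hT, hT] at h1
  have h2 : W ((aeval s ((X + C a) ^ 3 - (X + C a)) : Matrix (Fin n) (Fin n) ℂ) *ᵥ u) v = 0 := by
    have h3 : (aeval s ((X + C a) ^ 3 - (X + C a)) : Matrix (Fin n) (Fin n) ℂ) *ᵥ u =
        (aeval s (X + C a) : Matrix (Fin n) (Fin n) ℂ) *ᵥ
          ((aeval s (X + C a) : Matrix (Fin n) (Fin n) ℂ) *ᵥ
            ((aeval s (X + C a) : Matrix (Fin n) (Fin n) ℂ) *ᵥ u)) -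
        (aeval s (X + C a) : Matrix (Fin n) (Fin n) ℂ) *ᵥ u := by
      rw [map_sub, map_pow, Matrix.sub_mulVec, Matrix.mulVec_mulVec, Matrix.mulVec_mulVec, pow_three,
        mul_assoc]
    rw [h3]
    have h4 : ∀ x y : Fin n → ℂ, W (x - y) v = W x v - W y v := by
      intro x y
      ext i j
      simp only [W, Matrix.sub_apply, Matrix.vecMulVec_apply, Pi.sub_apply]
      ring
    rw [h4, h1, sub_self]
  exact W_zero hv0 h2

theorem ann {s : Matrix (Fin n) (Fin n) ℂ} (hs : sᵀ = -s)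
    (had : ∀ Z, Zᵀ = -Z → br s (br s (br s Z)) = br s Z) {a : ℂ} {v : Fin n → ℂ} (hv0 : v ≠ 0)
    (hv : s *ᵥ v = a • v) :
    (aeval s ((X - C a) * ((X + C a) ^ 3 - (X + C a))) : Matrix (Fin n) (Fin n) ℂ) = 0 := by
  apply Matrix.ext_of_mulVec_single
  intro i
  rw [Matrix.zero_mulVec, map_mul, ← Matrix.mulVec_mulVec]
  obtain ⟨c, hc⟩ := range_line hs had hv0 hv (Pi.single i 1)
  rw [hc, map_sub, aeval_X, aeval_C, Matrix.sub_mulVec, Algebra.algebraMap_eq_smul_one,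
    Matrix.smul_mulVec, Matrix.one_mulVec, Matrix.mulVec_smul, hv, smul_comm, sub_self]

theorem exists_eig {s : Matrix (Fin n) (Fin n) ℂ} (hs : sᵀ = -s) (ht : (s * s).trace = 2) :
    ∃ (a : ℂ) (v w : Fin n → ℂ), a ≠ 0 ∧ v ≠ 0 ∧ w ≠ 0 ∧ s *ᵥ v = a • v ∧ s *ᵥ w = (-a) • w := by
  rw [Matrix.trace_eq_sum_roots_charpoly] at ht
  have h1 : ∃ b ∈ (s * s).charpoly.roots, b ≠ 0 := by
    by_contra hcon
    push Not at hcon
    rw [Multiset.sum_eq_zero hcon] at ht
    norm_num at ht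
  obtain ⟨b, hb, hb0⟩ := h1
  have hroot := (Polynomial.mem_roots'.1 hb).2
  obtain ⟨a, ha⟩ := IsAlgClosed.exists_pow_nat_eq b (n := 2) (by norm_num)
  have ha0 : a ≠ 0 := by
    intro h
    rw [h] at ha
    apply hb0
    rw [← ha]; norm_num
  rw [Polynomial.IsRoot, Matrix.eval_charpoly] at hroot
  have h2 : Matrix.scalar (Fin n) b - s * s =
      (Matrix.scalar (Fin n) a - s) * (Matrix.scalar (Fin n) a + s) := by
    have h3 : Matrix.scalar (Fin n) b = Matrix.scalar (Fin n) a * Matrix.scalar (Fin n) a := by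
      rw [← map_mul, ← ha, sq]
    have h4 : Matrix.scalar (Fin n) a * s = s * Matrix.scalar (Fin n) a :=
      Matrix.scalar_commute a (fun _ => Commute.all _ _) s
    rw [h3, sub_mul, mul_add, mul_add, h4]
    abel
  rw [h2, Matrix.det_mul] at hroot
  have h5 : (Matrix.scalar (Fin n) a - s)ᵀ = Matrix.scalar (Fin n) a + s := by
    rw [Matrix.transpose_sub, hs, sub_neg_eq_add]
    congr 1
    simp [Matrix.scalar_apply]
  have h6 : (Matrix.scalar (Fin n) a - s).det = (Matrix.scalar (Fin n) a + s).det := by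
    rw [← h5, Matrix.det_transpose]
  rw [← h6] at hroot
  have h7 : (Matrix.scalar (Fin n) a - s).det = 0 := by
    rcases mul_eq_zero.1 hroot with h | h <;> exact h
  have h8 : (Matrix.scalar (Fin n) a + s).det = 0 := by rw [← h6]; exact h7
  obtain ⟨v, hv, hv2⟩ := Matrix.exists_mulVec_eq_zero_iff.2 h7
  obtain ⟨w, hw, hw2⟩ := Matrix.exists_mulVec_eq_zero_iff.2 h8
  have hsc : ∀ x : Fin n → ℂ, Matrix.scalar (Fin n) a *ᵥ x = a • x := by
    intro x
    rw [Matrix.scalar_apply]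
    funext i
    rw [Matrix.mulVec_diagonal]
    rfl
  refine ⟨a, v, w, ha0, hv, hw, ?_, ?_⟩
  · rw [Matrix.sub_mulVec, hsc, sub_eq_zero] at hv2
    exact hv2.symm
  · rw [Matrix.add_mulVec, hsc] at hw2
    rw [neg_smul]
    exact eq_neg_of_add_eq_zero_right hw2

theorem C_mul_aeval (s : Matrix (Fin n) (Fin n) ℂ) (c : ℂ) (p : ℂ[X]) :
    (aeval s (C c * p) : Matrix (Fin n) (Fin n) ℂ) = c • aeval s p := by
  rw [← Polynomial.smul_eq_C_mul, map_smul]

theorem aeval_lin (s : Matrix (Fin n) (Fin n) ℂ) (a : ℂ) (u : Fin n → ℂ) :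
    (aeval s (X + C a) : Matrix (Fin n) (Fin n) ℂ) *ᵥ u = s *ᵥ u + a • u := by
  rw [map_add, aeval_X, aeval_C, Matrix.add_mulVec, Algebra.algebraMap_eq_smul_one,
    Matrix.smul_mulVec, Matrix.one_mulVec]

theorem cub (s : Matrix (Fin n) (Fin n) ℂ) (a : ℂ) (ha : a ≠ 0)
    (P1 : (aeval s ((X - C a) * ((X + C a) ^ 3 - (X + C a))) : Matrix (Fin n) (Fin n) ℂ) = 0)
    (P2 : (aeval s ((X - C (-a)) * ((X + C (-a)) ^ 3 - (X + C (-a)))) :
      Matrix (Fin n) (Fin n) ℂ) = 0) :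
    (aeval s (X * (X ^ 2 - C (a ^ 2))) : Matrix (Fin n) (Fin n) ℂ) = 0 := by
  have h1 : (C (4 * a) * (X * (X ^ 2 - C (a ^ 2))) : ℂ[X]) =
      (X - C a) * ((X + C a) ^ 3 - (X + C a)) -
        (X - C (-a)) * ((X + C (-a)) ^ 3 - (X + C (-a))) := by
    simp only [map_mul, map_pow, map_neg]
    have : (C (4 : ℂ) : ℂ[X]) = 4 := map_ofNat C 4
    rw [this]
    ring
  have h2 : (aeval s (C (4 * a) * (X * (X ^ 2 - C (a ^ 2)))) : Matrix (Fin n) (Fin n) ℂ) = 0 := by
    rw [h1, map_sub, P1, P2, sub_zero]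
  rw [C_mul_aeval] at h2
  rcases smul_eq_zero.1 h2 with h | h
  · exfalso
    apply ha
    simpa using h
  · exact h

theorem quad (s : Matrix (Fin n) (Fin n) ℂ) (a : ℂ) (ha1 : a ^ 2 ≠ 1)
    (P1 : (aeval s ((X - C a) * ((X + C a) ^ 3 - (X + C a))) : Matrix (Fin n) (Fin n) ℂ) = 0)
    (hc : (aeval s (X * (X ^ 2 - C (a ^ 2))) : Matrix (Fin n) (Fin n) ℂ) = 0) :
    (aeval s (X ^ 2 - C (a ^ 2)) : Matrix (Fin n) (Fin n) ℂ) = 0 := by
  have h1 : (C (a ^ 2 - 1) * (X ^ 2 - C (a ^ 2)) : ℂ[X]) =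
      (X - C a) * ((X + C a) ^ 3 - (X + C a)) -
        (X + C (2 * a)) * (X * (X ^ 2 - C (a ^ 2))) := by
    simp only [map_mul, map_pow, map_sub, map_one]
    have : (C (2 : ℂ) : ℂ[X]) = 2 := map_ofNat C 2
    rw [this]
    ring
  have h2 : (aeval s (C (a ^ 2 - 1) * (X ^ 2 - C (a ^ 2))) : Matrix (Fin n) (Fin n) ℂ) = 0 := by
    rw [h1, map_sub, P1, map_mul (aeval s) (X + C (2 * a)), hc, mul_zero, sub_zero]
  rw [C_mul_aeval] at h2
  rcases smul_eq_zero.1 h2 with h | h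
  · exact absurd (sub_eq_zero.1 h) ha1
  · exact h

theorem lin (s : Matrix (Fin n) (Fin n) ℂ) (a b : ℂ) (hab : b ^ 2 = a ^ 2)
    (hq : (aeval s (X ^ 2 - C (a ^ 2)) : Matrix (Fin n) (Fin n) ℂ) = 0) :
    (aeval s ((X + C b) ^ 3 - (X + C b)) : Matrix (Fin n) (Fin n) ℂ) =
      (4 * a ^ 2 - 1) • aeval s (X + C b) := by
  have h1 : ((X + C b) ^ 3 - (X + C b) : ℂ[X]) =
      C (4 * a ^ 2 - 1) * (X + C b) + (X + C (3 * b)) * (X ^ 2 - C (a ^ 2)) := by
    rw [← hab]
    simp only [map_mul, map_pow, map_sub, map_one]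
    have : (C (4 : ℂ) : ℂ[X]) = 4 := map_ofNat C 4
    have h3 : (C (3 : ℂ) : ℂ[X]) = 3 := map_ofNat C 3
    rw [this, h3]
    ring
  rw [h1, map_add, C_mul_aeval, map_mul (aeval s) (X + C (3 * b)), hq, mul_zero, add_zero]

theorem typ : S_typ := by
  intro n hn hn8 s hs ht had
  obtain ⟨a, v, w, ha, hv0, hw0, hv, hw⟩ := exists_eig hs ht
  have P1 := ann hs had hv0 hv
  have P2 := ann hs had hw0 hw
  have hcub := cub s a ha P1 P2
  by_cases ha1 : a ^ 2 = 1
  · rw [ha1, map_mul, map_sub, map_pow, aeval_X, aeval_C, map_one, mul_sub, mul_one, sub_eq_zero] at hcub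
    rw [mul_assoc, ← sq]
    exact hcub
  · exfalso
    have hq := quad s a ha1 P1 hcub
    have hsq : s * s = (a ^ 2) • (1 : Matrix (Fin n) (Fin n) ℂ) := by
      have h1 := hq
      rw [map_sub, map_pow, aeval_X, aeval_C, Algebra.algebraMap_eq_smul_one, sub_eq_zero] at h1
      rw [← sq]
      exact h1
    have htr : (n : ℂ) * a ^ 2 = 2 := by
      rw [← ht, hsq, Matrix.trace_smul, Matrix.trace_one, Fintype.card_fin, smul_eq_mul]
      ring
    by_cases h4 : 4 * a ^ 2 - 1 = 0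
    · apply hn8
      have h5 : (n : ℂ) = 8 := by linear_combination 4 * htr - (n : ℂ) * h4
      exact_mod_cast h5
    · have hspan : ∀ u : Fin n → ℂ, u ∈ Submodule.span ℂ
          ((({v, w} : Finset (Fin n → ℂ)) : Finset (Fin n → ℂ)) : Set (Fin n → ℂ)) := by
        intro u
        obtain ⟨c1, hc1⟩ := range_line hs had hv0 hv u
        obtain ⟨c2, hc2⟩ := range_line hs had hw0 hw u
        rw [lin s a a rfl hq, Matrix.smul_mulVec, aeval_lin] at hc1
        rw [lin s a (-a) (by ring) hq, Matrix.smul_mulVec, aeval_lin] at hc2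
        have h6 : u = (c1 / ((4 * a ^ 2 - 1) * (2 * a))) • v -
            (c2 / ((4 * a ^ 2 - 1) * (2 * a))) • w := by
          funext i
          have e1 := congrFun hc1 i
          have e2 := congrFun hc2 i
          simp only [Pi.smul_apply, Pi.add_apply, smul_eq_mul, Pi.sub_apply] at e1 e2 ⊢
          have h2a : (2 * a) ≠ 0 := by simpa using ha
          field_simp
          linear_combination e1 - e2
        rw [h6]
        apply Submodule.sub_mem
        · apply Submodule.smul_mem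
          apply Submodule.subset_span
          simp
        · apply Submodule.smul_mem
          apply Submodule.subset_span
          simp
      have htop : Submodule.span ℂ
          ((({v, w} : Finset (Fin n → ℂ)) : Finset (Fin n → ℂ)) : Set (Fin n → ℂ)) = ⊤ := by
        rw [eq_top_iff]
        intro u _
        exact hspan u
      have h7 := finrank_span_finset_le_card (R := ℂ) ({v, w} : Finset (Fin n → ℂ))
      have h7' : finrank ℂ (Submodule.span ℂ
          ((({v, w} : Finset (Fin n → ℂ)) : Finset (Fin n → ℂ)) : Set (Fin n → ℂ))) ≤ 2 :=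
        h7.trans Finset.card_le_two
      rw [htop, finrank_top, Module.finrank_fin_fun] at h7'
      omega

end Pool.Agent.W577.PG
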